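import Pool.Agent.H85S.Bk
import Pool.Agent.H25G.Final

/-!
# Cubic bipartite graphs of girth at least `(4/3) log₂ n - O(1)` on every even number `n` of vertices
-/

namespace Pool.Agent.Results.MP_7ef8f0_co.BoundedError

/-- The maximum of the girths of the cubic bipartite graphs on `n` vertices. -/
noncomputable def b (n : ℕ) : ℕ :=
  sSup {g | ∃ G : SimpleGraph (Fin n),
    (∀ v, (G.neighborSet v).ncard = 3) ∧ G.IsBipartite ∧ G.girth = g}

/-- The set of girths in the definition of `b` is bounded, so that the supremum is a maximum. -/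
theorem bddAbove (n : ℕ) : BddAbove {g | ∃ G : SimpleGraph (Fin n),
    (∀ v, (G.neighborSet v).ncard = 3) ∧ G.IsBipartite ∧ G.girth = g} := H85S.SB_bdd n

/-- There is a constant `C` such that for every `m ≥ 8` there is a connected cubic bipartite graph on
`2m` vertices whose girth is at least `(4/3) log₂ (2m) - C`, and also at least
`(4/3) log₂ (2m) - 34 log₂ log₂ (2m) - 160`; these are lower bounds for `b (2m)`. -/
theorem result : ∃ C : ℝ, ∀ m : ℕ, 8 ≤ m →
    (∃ G : SimpleGraph (Fin (2 * m)), G.Connected ∧ (∀ v, (G.neighborSet v).ncard = 3) ∧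
      G.IsBipartite ∧
      4 / 3 * Real.logb 2 (2 * m) -
        min C (34 * Real.logb 2 (Real.logb 2 (2 * m)) + 160) ≤ (G.girth : ℝ)) ∧
    4 / 3 * Real.logb 2 (2 * m) -
        min C (34 * Real.logb 2 (Real.logb 2 (2 * m)) + 160) ≤ (b (2 * m) : ℝ) := by
  obtain ⟨C, hC⟩ := H85S.exists_const
  refine ⟨C, ?_⟩
  intro m hm
  have key : ∃ G : SimpleGraph (Fin (2 * m)), G.Connected ∧ (∀ v, (G.neighborSet v).ncard = 3) ∧
      G.IsBipartite ∧
      4 / 3 * Real.logb 2 (2 * m) -
        min C (34 * Real.logb 2 (Real.logb 2 (2 * m)) + 160) ≤ (G.girth : ℝ) := by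
    rcases le_total C (34 * Real.logb 2 (Real.logb 2 (2 * m)) + 160) with h | h
    · obtain ⟨G, hc, hn, hb, hg⟩ := hC m hm
      rw [min_eq_left h]
      exact ⟨G, hc, hn, hb, hg⟩
    · obtain ⟨G, hc, hn, hb, hg⟩ := H25G.exists_graph hm
      unfold H25G.bd at hg
      rw [min_eq_right h]
      refine ⟨G, hc, hn, hb, ?_⟩
      linarith
  refine ⟨key, ?_⟩
  obtain ⟨G, hc, hn, hb, hg⟩ := key
  refine hg.trans ?_
  have h : G.girth ≤ b (2 * m) := H85S.le_bb G hn hb
  exact_mod_cast h

end Pool.Agent.Results.MP_7ef8f0_co.BoundedError
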