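import Pool.Agent.H85S.Bk

/-!
# The maximum girth of cubic bipartite graphs of two consecutive even orders
-/

namespace Pool.Agent.Results.MP_7ef8f0_co.ConsecutiveOrders

/-- The maximum of the girths of the cubic bipartite graphs on `n` vertices. -/
noncomputable def b (n : ℕ) : ℕ :=
  sSup {g | ∃ G : SimpleGraph (Fin n),
    (∀ v, (G.neighborSet v).ncard = 3) ∧ G.IsBipartite ∧ G.girth = g}

/-- The set of girths in the definition of `b` is bounded, so that the supremum is a maximum. -/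
theorem bddAbove (n : ℕ) : BddAbove {g | ∃ G : SimpleGraph (Fin n),
    (∀ v, (G.neighborSet v).ncard = 3) ∧ G.IsBipartite ∧ G.girth = g} := H85S.SB_bdd n

/-- For every even `n ≥ 6`: `b (n + 2) ≤ b n + 2`, and `b (n + 2) ≥ min (2 ^ (r + 2)) (b n - 2r)` for
every `r` with `2r + 4 ≤ b n`, so that `b (n + 2) ≥ b n - 2 log₂ (b n) + 2`. -/
theorem result (n : ℕ) (hn : Even n) (h6 : 6 ≤ n) :
    b (n + 2) ≤ b n + 2 ∧
    (∀ r : ℕ, 2 * r + 4 ≤ b n → min (2 ^ (r + 2)) (b n - 2 * r) ≤ b (n + 2)) ∧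
    (b n : ℝ) - 2 * Real.logb 2 (b n) + 2 ≤ b (n + 2) :=
  ⟨H85S.bb_succ_le hn h6, fun _ hr => H85S.le_bb_succ hn h6 hr, H85S.bb_low hn h6⟩

end Pool.Agent.Results.MP_7ef8f0_co.ConsecutiveOrders
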