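import Pool.Agent.H85S.Modulus

/-!
# The maximum girth of cubic bipartite graphs of nearby orders
-/

namespace Pool.Agent.Results.MP_7ef8f0_co.Continuity

/-- The maximum of the girths of the cubic bipartite graphs on `n` vertices. -/
noncomputable def b (n : ℕ) : ℕ :=
  sSup {g | ∃ G : SimpleGraph (Fin n),
    (∀ v, (G.neighborSet v).ncard = 3) ∧ G.IsBipartite ∧ G.girth = g}

/-- The set of girths in the definition of `b` is bounded, so that the supremum is a maximum. -/
theorem bddAbove (n : ℕ) : BddAbove {g | ∃ G : SimpleGraph (Fin n),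
    (∀ v, (G.neighborSet v).ncard = 3) ∧ G.IsBipartite ∧ G.girth = g} := H85S.SB_bdd n

/-- For all even `n ≥ 16` and all `1 ≤ h ≤ n / 2`, with `q = log n / log (n / h)`,
`b n - 600 q log log n ≤ b (n + 2h) ≤ b n + 50 q`. In particular, if `h ≤ n ^ (1 - δ)`, then
`b n - (600 / δ) log log n ≤ b (n + 2h) ≤ b n + 50 / δ`. -/
theorem result (n h : ℕ) (hn : Even n) (h16 : 16 ≤ n) (h1 : 1 ≤ h) (h2 : 2 * h ≤ n) :
    ((b n : ℝ) - 600 * (Real.log n / Real.log (n / h)) * Real.log (Real.log n) ≤ b (n + 2 * h) ∧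
      (b (n + 2 * h) : ℝ) ≤ b n + 50 * (Real.log n / Real.log (n / h))) ∧
    ∀ δ : ℝ, 0 < δ → (h : ℝ) ≤ (n : ℝ) ^ (1 - δ) →
      (b n : ℝ) - 600 / δ * Real.log (Real.log n) ≤ b (n + 2 * h) ∧
      (b (n + 2 * h) : ℝ) ≤ b n + 50 / δ := by
  have hl := H85S.lower hn h16 h1 h2
  have hu := H85S.upper hn h16 h1 h2
  refine ⟨⟨hl, hu⟩, ?_⟩
  intro δ hδ hh
  obtain ⟨g1, g2, g3, g4⟩ := H85S.facts h16 h1 h2
  have hn0 : (0 : ℝ) < n := by
    have : 0 < n := by omega
    exact_mod_cast this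
  have hh0 : (0 : ℝ) < h := by exact_mod_cast h1
  have h3 : δ * Real.log n ≤ Real.log ((n : ℝ) / h) := by
    rw [Real.log_div hn0.ne' hh0.ne']
    have h4 := Real.log_le_log hh0 hh
    rw [Real.log_rpow hn0] at h4
    linarith
  have h4 : Real.log n / Real.log ((n : ℝ) / h) ≤ 1 / δ := by
    rw [div_le_div_iff₀ g1 hδ]
    linarith
  have h5 : 600 * (Real.log n / Real.log ((n : ℝ) / h)) * Real.log (Real.log n) ≤
      600 / δ * Real.log (Real.log n) := by
    apply mul_le_mul_of_nonneg_right _ (by linarith)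
    calc 600 * (Real.log n / Real.log ((n : ℝ) / h)) ≤ 600 * (1 / δ) := by linarith
      _ = 600 / δ := by ring
  have h6 : 50 * (Real.log n / Real.log ((n : ℝ) / h)) ≤ 50 / δ := by
    calc 50 * (Real.log n / Real.log ((n : ℝ) / h)) ≤ 50 * (1 / δ) := by linarith
      _ = 50 / δ := by ring
  constructor
  · exact (sub_le_sub_left h5 _).trans hl
  · exact hu.trans (by
      have : (b n : ℝ) + 50 * (Real.log n / Real.log ((n : ℝ) / h)) ≤ b n + 50 / δ := by linarith
      exact this)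

end Pool.Agent.Results.MP_7ef8f0_co.Continuity
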