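import Pool.Agent.H85S.Bk

/-!
# The maximum girth of cubic bipartite graphs of given order and the cubic cage numbers

`b n` is the maximum girth of a cubic bipartite graph of order exactly `n`, and `κ N` is the maximum
girth of a cubic graph (bipartite or not) of order at most `N`, that is, the largest `g` with
`n(3,g) ≤ N`. The theorem `result` shows that `b` follows `κ`.
-/

open Filter

namespace Pool.Agent.Results.MP_7ef8f0_co.Smoothing

/-- The maximum of the girths of the cubic bipartite graphs on `n` vertices. -/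
noncomputable def b (n : ℕ) : ℕ :=
  sSup {g | ∃ G : SimpleGraph (Fin n),
    (∀ v, (G.neighborSet v).ncard = 3) ∧ G.IsBipartite ∧ G.girth = g}

/-- The maximum of the girths of the cubic graphs on at most `N` vertices. -/
noncomputable def κ (N : ℕ) : ℕ :=
  sSup {g | ∃ n ≤ N, ∃ G : SimpleGraph (Fin n),
    (∀ v, (G.neighborSet v).ncard = 3) ∧ G.girth = g}

/-- The set of girths in the definition of `b` is bounded, so that the supremum is a maximum. -/
theorem b_bddAbove (n : ℕ) : BddAbove {g | ∃ G : SimpleGraph (Fin n),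
    (∀ v, (G.neighborSet v).ncard = 3) ∧ G.IsBipartite ∧ G.girth = g} := H85S.SB_bdd n

/-- The set of girths in the definition of `κ` is bounded, so that the supremum is a maximum. -/
theorem κ_bddAbove (N : ℕ) : BddAbove {g | ∃ n ≤ N, ∃ G : SimpleGraph (Fin n),
    (∀ v, (G.neighborSet v).ncard = 3) ∧ G.girth = g} := H85S.SK_bdd N

/-- (1) A cubic graph of order `n` and girth `g ≥ R + 2` gives, for every even `N ≥ 2 ^ (R + 3) * n`,
a connected cubic bipartite graph of order `N` and girth at least `R * g / (R + 2)`.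
(2) The lower and the upper limit of `b (2m) / log₂ (2m)` are those of `κ (2m) / log₂ (2m)`.
(3) For every `ε > 0`, all but `O(log J)` of the first `J` dyadic intervals `[2 ^ j, 2 ^ (j + 1))`
contain no even `N` with `b N < (1 - ε) κ N`.
(4) The sum of `κ - b` over any choice of even numbers in the first `J` dyadic intervals is
`O(J √J)`. -/
theorem result :
    (∀ (n R N : ℕ) (G : SimpleGraph (Fin n)), (∀ v, (G.neighborSet v).ncard = 3) → 1 ≤ R →
      R + 2 ≤ G.girth → Even N → 2 ^ (R + 3) * n ≤ N →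
      ∃ H : SimpleGraph (Fin N), H.Connected ∧ (∀ v, (H.neighborSet v).ncard = 3) ∧
        H.IsBipartite ∧ R * G.girth ≤ (R + 2) * H.girth) ∧
    (liminf (fun m : ℕ => (((b (2 * m) : ℝ) / Real.logb 2 (2 * m) : ℝ) : EReal)) atTop =
        liminf (fun m : ℕ => (((κ (2 * m) : ℝ) / Real.logb 2 (2 * m) : ℝ) : EReal)) atTop ∧
      limsup (fun m : ℕ => (((b (2 * m) : ℝ) / Real.logb 2 (2 * m) : ℝ) : EReal)) atTop =
        limsup (fun m : ℕ => (((κ (2 * m) : ℝ) / Real.logb 2 (2 * m) : ℝ) : EReal)) atTop) ∧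
    (∀ ε : ℝ, 0 < ε → ∃ C : ℝ, ∀ J : ℕ, 2 ≤ J →
      (({j | j < J ∧ ∃ N, Even N ∧ 2 ^ j ≤ N ∧ N < 2 ^ (j + 1) ∧
        (b N : ℝ) < (1 - ε) * κ N} : Set ℕ).ncard : ℝ) ≤ C * Real.log J) ∧
    (∃ C : ℝ, ∀ (J : ℕ) (f : ℕ → ℕ),
      (∀ j < J, Even (f j) ∧ 2 ^ (j + 1) ≤ f j ∧ f j < 2 ^ (j + 2)) →
      ∑ j ∈ Finset.range J, ((κ (f j) : ℝ) - b (f j)) ≤ C * (J * √J)) := by
  refine ⟨?_, ?_, ?_, ?_⟩
  · intro n R N G h3 hR hg hN h
    exact H85S.exists_smooth G h3 le_rfl hR hg hN h
  · exact H85S.liminf_limsup_eq H85S.bb H85S.kk H85S.bb_le_kk H85S.kk_mono H85S.kk_log H85S.kk_low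
  · intro ε hε
    exact H85S.exc H85S.kk_mono H85S.kk_log H85S.kk_low H85S.kk_big ε hε
  · exact H85S.avg H85S.kk_mono H85S.kk_log H85S.kk_low

end Pool.Agent.Results.MP_7ef8f0_co.Smoothing
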